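import Pool.Agent.H68.TK.Del
import Pool.Agent.H5.SW.L5

/-!
Quadratic extensions `C = L(s)`, `s² = D` an integer (helper11, MP_78d38b_T3D; no row). Adapted from Pool/Agent/H68/TK/Sgb.lean (`D = -3`).
-/

set_option autoImplicit false
open scoped Classical

open IsDedekindDomain NumberField Finset

namespace H11Q

/-- The minimal polynomial of `s`. -/
theorem min_q {D : ℤ} {L C : Type} [Field L] [NumberField L] [Field C] [NumberField C] [Algebra L C]
    {s : C} (hs : s ^ 2 = (D : C)) (h0 : ∀ z : L, z ^ 2 ≠ (D : L)) :
    minpoly L s = Polynomial.X ^ 2 - Polynomial.C (D : L) := by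
  have hirr : Irreducible (Polynomial.X ^ 2 - Polynomial.C (D : L) : Polynomial L) :=
    X_pow_sub_C_irreducible_of_prime Nat.prime_two h0
  symm
  apply minpoly.eq_of_irreducible_of_monic hirr
  · rw [map_sub, map_pow, Polynomial.aeval_X, Polynomial.aeval_C, hs, map_intCast, sub_self]
  · exact Polynomial.monic_X_pow_sub_C _ two_ne_zero

/-- The compositum of a Galois extension and `K(√D)` is normal. -/
theorem normal_q {D : ℤ} {K L C : Type} [Field K] [NumberField K] [Field L] [NumberField L] [Field C]
    [NumberField C] [Algebra K L] [Algebra L C] [Algebra K C] [IsScalarTower K L C]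
    [IsGalois K L] {s : C} (hs : s ^ 2 = (D : C))
    (hgen : IntermediateField.adjoin L {s} = ⊤) : Normal K C := by
  have hfd : FiniteDimensional K L := Module.Finite.of_restrictScalars_finite ℚ K L
  have hfd2 : FiniteDimensional K C := Module.Finite.of_restrictScalars_finite ℚ K C
  obtain ⟨T, hT₁, hT₂⟩ := IsGalois.is_separable_splitting_field K L
  have hT0 : T ≠ 0 := hT₁.ne_zero
  have hq0 : (Polynomial.X ^ 2 - Polynomial.C (D : K) : Polynomial K) ≠ 0 :=
    (Polynomial.monic_X_pow_sub_C _ two_ne_zero).ne_zero
  have h0 : T * (Polynomial.X ^ 2 - Polynomial.C (D : K)) ≠ 0 := mul_ne_zero hT0 hq0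
  have h0' : (T * (Polynomial.X ^ 2 - Polynomial.C (D : K))).map (algebraMap K C) ≠ 0 :=
    (Polynomial.map_ne_zero_iff (algebraMap K C).injective).mpr h0
  have hsp : (T * (Polynomial.X ^ 2 - Polynomial.C (D : K))).IsSplittingField K C := by
    rw [isSplittingField_iff_intermediateField] at hT₂ ⊢
    refine ⟨?_, ?_⟩
    · rw [Polynomial.map_mul]
      refine Polynomial.Splits.mul ?_ ?_
      · exact Polynomial.Splits.of_algHom hT₂.1 (IsScalarTower.toAlgHom K L C)
      · have h1 : (Polynomial.X ^ 2 - Polynomial.C (D : K) : Polynomial K).map (algebraMap K C) =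
            (Polynomial.X - Polynomial.C s) * (Polynomial.X - Polynomial.C (-s)) := by
          have h2 : (Polynomial.C s * Polynomial.C s : Polynomial C) = Polynomial.C (D : C) := by
            rw [← Polynomial.C_mul, ← hs, sq]
          rw [Polynomial.map_sub, Polynomial.map_pow, Polynomial.map_X, Polynomial.map_C, map_intCast, ← h2, Polynomial.C_neg]
          ring
        rw [h1]
        exact (Polynomial.Splits.X_sub_C _).mul (Polynomial.Splits.X_sub_C _)
    · rw [eq_top_iff]
      have hL : ∀ x : L, algebraMap L C x ∈ IntermediateField.adjoin K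
          ((T * (Polynomial.X ^ 2 - Polynomial.C (D : K))).rootSet C) := by
        intro x
        have hx : x ∈ IntermediateField.adjoin K (T.rootSet L) := by
          rw [hT₂.2]
          trivial
        induction hx using IntermediateField.adjoin_induction with
        | mem x hx =>
          apply IntermediateField.subset_adjoin
          rw [Polynomial.mem_rootSet'] at hx ⊢
          refine ⟨h0', ?_⟩
          rw [map_mul, Polynomial.aeval_algebraMap_apply, hx.2, map_zero, zero_mul]
        | algebraMap x =>
          rw [← IsScalarTower.algebraMap_apply]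
          exact IntermediateField.algebraMap_mem _ _
        | add x y _ _ hx hy => rw [map_add]; exact add_mem hx hy
        | inv x _ hx => rw [map_inv₀]; exact inv_mem hx
        | mul x y _ _ hx hy => rw [map_mul]; exact mul_mem hx hy
      have hsm : s ∈ IntermediateField.adjoin K
          ((T * (Polynomial.X ^ 2 - Polynomial.C (D : K))).rootSet C) := by
        apply IntermediateField.subset_adjoin
        rw [Polynomial.mem_rootSet']
        refine ⟨h0', ?_⟩
        rw [map_mul, map_sub, map_pow, Polynomial.aeval_X, Polynomial.aeval_C, hs, map_intCast, sub_self, mul_zero]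
      intro y _
      have hy : y ∈ IntermediateField.adjoin L {s} := by
        rw [hgen]
        trivial
      induction hy using IntermediateField.adjoin_induction with
      | mem x hx =>
        rw [Set.mem_singleton_iff.1 hx]
        exact hsm
      | algebraMap x => exact hL x
      | add x y _ _ hx hy => exact add_mem (hx trivial) (hy trivial)
      | inv x _ hx => exact inv_mem (hx trivial)
      | mul x y _ _ hx hy => exact mul_mem (hx trivial) (hy trivial)
  exact Normal.of_isSplittingField (T * (Polynomial.X ^ 2 - Polynomial.C (D : K)))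

section one

variable {D : ℤ} {K L C : Type} [Field K] [NumberField K] [Field L] [NumberField L] [Field C]
  [NumberField C] [Algebra K L] [Algebra L C] [Algebra K C] [IsScalarTower K L C]

theorem finrank_q {s : C} (hs : s ^ 2 = (D : C)) (hgen : IntermediateField.adjoin L {s} = ⊤)
    (h0 : ∀ z : L, z ^ 2 ≠ (D : L)) : Module.finrank L C = 2 := by
  have hfd : FiniteDimensional L C := Module.Finite.of_restrictScalars_finite ℚ L C
  have h2 : Module.finrank L (IntermediateField.adjoin L {s}) = 2 := by
    rw [IntermediateField.adjoin.finrank (IsIntegral.of_finite L s), min_q hs h0,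
      Polynomial.natDegree_X_pow_sub_C]
  rw [hgen, IntermediateField.finrank_top'] at h2
  exact h2

theorem galois_q [IsGalois K L] {s : C} (hs : s ^ 2 = (D : C))
    (hgen : IntermediateField.adjoin L {s} = ⊤) : IsGalois K C := by
  have hfd : FiniteDimensional K C := Module.Finite.of_restrictScalars_finite ℚ K C
  exact isGalois_iff.2 ⟨inferInstance, normal_q hs hgen⟩

theorem neg_q {s : C} (hs : s ^ 2 = (D : C)) (hgen : IntermediateField.adjoin L {s} = ⊤)
    (h0 : ∀ z : L, z ^ 2 ≠ (D : L)) : ∃ g : C ≃ₐ[L] C, g s = -s := by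
  have hfd : FiniteDimensional L C := Module.Finite.of_restrictScalars_finite ℚ L C
  have hn : Normal L C := normal_q (K := L) (L := L) hs hgen
  refine minpoly.exists_algEquiv_of_root' (Algebra.IsAlgebraic.isAlgebraic s) ?_
  rw [min_q hs h0, map_sub, map_pow, Polynomial.aeval_X, Polynomial.aeval_C, neg_sq, hs,
    map_intCast, sub_self]

theorem card_q [IsGalois K L] {s : C} (hs : s ^ 2 = (D : C))
    (hgen : IntermediateField.adjoin L {s} = ⊤) (h0 : ∀ z : L, z ^ 2 ≠ (D : L))
    (h3 : ¬ 3 ∣ Module.finrank K L) :
    ¬ 3 ∣ (univ.filter (fun g : C ≃ₐ[K] C => g s = s)).card := by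
  have hfd : FiniteDimensional K L := Module.Finite.of_restrictScalars_finite ℚ K L
  have hfd1 : FiniteDimensional L C := Module.Finite.of_restrictScalars_finite ℚ L C
  have hfd2 : FiniteDimensional K C := Module.Finite.of_restrictScalars_finite ℚ K C
  have hgal : IsGalois K C := galois_q hs hgen
  intro h
  have h1 : (univ.filter (fun g : C ≃ₐ[K] C => g s = s)).card =
      Nat.card (MulAction.stabilizer (C ≃ₐ[K] C) s) := by
    rw [Nat.card_eq_fintype_card, ← Fintype.card_subtype]
    exact Fintype.card_congr (Equiv.refl _)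
  have h2 : Nat.card (MulAction.stabilizer (C ≃ₐ[K] C) s) ∣ Nat.card (C ≃ₐ[K] C) :=
    Subgroup.card_subgroup_dvd_card _
  rw [h1] at h
  have h4 := h.trans h2
  rw [IsGalois.card_aut_eq_finrank, ← Module.finrank_mul_finrank K L C,
    finrank_q hs hgen h0] at h4
  rcases (Nat.Prime.dvd_mul Nat.prime_three).1 h4 with h5 | h5
  · exact h3 h5
  · omega

theorem comm_q [IsGalois K L] (hab : ∀ g g' : L ≃ₐ[K] L, g * g' = g' * g) {s : C} (hs : s ^ 2 = (D : C))
    (hgen : IntermediateField.adjoin L {s} = ⊤) (g g' : C ≃ₐ[K] C) : g * g' = g' * g := by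
  have hex : ∀ g : C ≃ₐ[K] C, ∃ σ : L ≃ₐ[K] L, ∀ z, g (algebraMap L C z) = algebraMap L C (σ z) := by
    intro g
    refine ⟨g.restrictNormal L, fun z => ?_⟩
    exact (AlgEquiv.restrictNormal_commutes g L z).symm
  have hpm : ∀ g : C ≃ₐ[K] C, g s = s ∨ g s = -s := by
    intro g
    rw [← sq_eq_sq_iff_eq_or_eq_neg, ← map_pow, hs, map_intCast]
  obtain ⟨σ, hσ⟩ := hex g
  obtain ⟨σ', hσ'⟩ := hex g'
  have hc : σ * σ' = σ' * σ := hab _ _
  ext x
  refine H68TK.Del_ext {s} hgen ((g * g' : C ≃ₐ[K] C) : C →+* C)
    ((g' * g : C ≃ₐ[K] C) : C →+* C) (fun r => ?_) ?_ x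
  · change g (g' (algebraMap L C r)) = g' (g (algebraMap L C r))
    rw [hσ, hσ', hσ, hσ']
    have h1 : σ (σ' r) = (σ * σ') r := rfl
    rw [h1, hc]
    rfl
  · intro z hz
    rw [Set.mem_singleton_iff] at hz
    subst hz
    change g (g' z) = g' (g z)
    rcases hpm g with h1 | h1 <;> rcases hpm g' with h2 | h2 <;>
      simp only [h1, h2, map_neg]

end one

end H11Q
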