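import Pool.Agent.H5.SW.L5

/-!
Prime numbers `q ≠ p` are unramified in the layers; `D` is not a square there (helper11, MP_78d38b_T3D; no row). Adapted from Pool/Agent/H55/T3/Un.lean.
-/

set_option autoImplicit false
open scoped Classical

open IsDedekindDomain NumberField WithZero H5SW

namespace H11Q

theorem discr_prime {p q : ℕ} [Fact p.Prime] (hq : q.Prime) (hqp : q ≠ p) {L : Type} [Field L] [NumberField L]
    (hL : IsR p L) : ¬ (q : ℤ) ∣ NumberField.discr L := by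
  have hp : p.Prime := Fact.out
  have hqz : Prime (q : ℤ) := Nat.prime_iff_prime_int.1 hq
  obtain ⟨-, n, ⟨i⟩⟩ := hL
  have hz : NeZero (p ^ (n + 1)) := ⟨pow_ne_zero _ hp.ne_zero⟩
  have hz' : NeZero (((p ^ (n + 1) : ℕ) : ℚ)) := ⟨Nat.cast_ne_zero.mpr (pow_ne_zero _ hp.ne_zero)⟩
  have hcyc : IsCyclotomicExtension {p ^ (n + 1)} ℚ (CyclotomicField (p ^ (n + 1)) ℚ) :=
    CyclotomicField.isCyclotomicExtension (p ^ (n + 1)) ℚ
  let _ : Algebra L (CyclotomicField (p ^ (n + 1)) ℚ) := i.toAlgebra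
  have hNF : NumberField (CyclotomicField (p ^ (n + 1)) ℚ) :=
    IsCyclotomicExtension.numberField {p ^ (n + 1)} ℚ _
  have h1 : NumberField.discr L ∣ NumberField.discr (CyclotomicField (p ^ (n + 1)) ℚ) :=
    NumberField.discr_dvd_discr L (CyclotomicField (p ^ (n + 1)) ℚ)
  have h2 := IsCyclotomicExtension.Rat.discr_prime_pow p (n + 1) (CyclotomicField (p ^ (n + 1)) ℚ)
  rw [h2] at h1
  intro h3
  have h4 := h3.trans h1
  rcases hqz.dvd_or_dvd h4 with h5 | h5
  · have h6 := hqz.dvd_of_dvd_pow h5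
    exact hqz.not_unit (isUnit_of_dvd_unit h6 (by norm_num))
  · have h6 := hqz.dvd_of_dvd_pow h5
    have h7 : q ∣ p := by exact_mod_cast h6
    exact hqp ((Nat.prime_dvd_prime_iff_eq hq hp).1 h7)

theorem val_prime {p q : ℕ} [Fact p.Prime] (hq : q.Prime) (hqp : q ≠ p) {L : Type} [Field L] [NumberField L]
    (hL : IsR p L) (w : HeightOneSpectrum (𝓞 L)) (hw : (q : 𝓞 L) ∈ w.asIdeal) :
    w.valuation L (q : L) = exp (-1 : ℤ) := by
  have hqz : Prime (q : ℤ) := Nat.prime_iff_prime_int.1 hq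
  have h2 := discr_prime hq hqp hL
  have h3 := (NumberField.not_dvd_discr_iff_forall_mem L (𝓞 L) hqz).1 h2 w.asIdeal
    w.isPrime (by simpa using hw)
  have h' : (q : 𝓞 L) ∉ w.asIdeal ^ 2 := by
    intro h4
    have hprime := w.isPrime
    have hover : w.asIdeal.LiesOver (Ideal.span {(q : ℤ)}) :=
      (Ideal.liesOver_span_iff w.isPrime.ne_top hqz).mpr (by simpa using hw)
    have hsp : (Ideal.span {(q : ℤ)}).IsPrime :=
      (Ideal.span_singleton_prime hqz.ne_zero).2 hqz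
    let := Localization.AtPrime.algebraOfLiesOver (Ideal.span {(q : ℤ)}) w.asIdeal
    have h5 := ((Algebra.isUnramifiedAt_iff_map_eq ℤ (Ideal.span {(q : ℤ)}) w.asIdeal).mp h3).2
    have h6 : Ideal.map (algebraMap ℤ (𝓞 L)) (Ideal.span {(q : ℤ)}) ≤ w.asIdeal := by
      rw [Ideal.map_span, Ideal.span_le]
      simpa using hw
    have h7 := Ideal.ramificationIdx'_eq_one_of_map_localization h6 w.ne_bot
      w.asIdeal.primeCompl_le_nonZeroDivisors h5
    have h8 : Ideal.map (algebraMap ℤ (𝓞 L)) (Ideal.span {(q : ℤ)}) ≤ w.asIdeal ^ 2 := by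
      rw [Ideal.map_span, Ideal.span_le]
      simpa using h4
    exact (Ideal.ramificationIdx'_ne_one_iff h6).2 h8 h7
  have e2 : algebraMap (𝓞 L) L (q : 𝓞 L) = (q : L) := map_natCast (algebraMap (𝓞 L) L) q
  rw [← e2, w.valuation_of_algebraMap]
  apply le_antisymm
  · have h1 := (w.intValuation_le_pow_iff_mem (q : 𝓞 L) 1).mpr (by rw [pow_one]; exact hw)
    exact_mod_cast h1
  · have h1 := mt (w.intValuation_le_pow_iff_mem (q : 𝓞 L) 2).mp h'
    rw [not_le] at h1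
    have h0 : w.intValuation (q : 𝓞 L) ≠ 0 := fun h0 => by
      rw [h0] at h1
      exact absurd h1 not_lt_zero
    rw [← exp_log h0, exp_lt_exp] at h1
    rw [← exp_log h0, exp_le_exp]
    push_cast at h1
    omega

/-- an integer prime to `q` is a unit above `q` -/
theorem val_unit {q : ℕ} (hq : q.Prime) {L : Type} [Field L] [NumberField L] (w : HeightOneSpectrum (𝓞 L))
    (hw : (q : 𝓞 L) ∈ w.asIdeal) {c : ℤ} (hc : ¬ (q : ℤ) ∣ c) : w.valuation L (c : L) = 1 := by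
  have e2 : algebraMap (𝓞 L) L (c : 𝓞 L) = (c : L) := map_intCast (algebraMap (𝓞 L) L) c
  rw [← e2, w.valuation_of_algebraMap]
  have h1 : (c : 𝓞 L) ∉ w.asIdeal := by
    intro h
    have hcop : IsCoprime (q : ℤ) c := (Prime.coprime_iff_not_dvd (Nat.prime_iff_prime_int.1 hq)).2 hc
    obtain ⟨a, b, hab⟩ := hcop
    apply w.isPrime.ne_top
    rw [Ideal.eq_top_iff_one]
    have h2 : (a : 𝓞 L) * (q : 𝓞 L) + (b : 𝓞 L) * (c : 𝓞 L) = 1 := by
      have := congrArg (fun z : ℤ => (z : 𝓞 L)) hab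
      push_cast at this
      exact this
    rw [← h2]
    exact w.asIdeal.add_mem (w.asIdeal.mul_mem_left _ hw) (w.asIdeal.mul_mem_left _ h)
  exact w.intValuation_eq_one_iff.2 h1

theorem no_sqrt {p : ℕ} [Fact p.Prime] {D : ℤ} (hD : 1 < D) (hsq : Squarefree D) (hpD : ¬ (p : ℤ) ∣ D) {L : Type} [Field L]
    [NumberField L] (hL : IsR p L) (z : L) : z ^ 2 ≠ (D : L) := by
  intro hz
  obtain ⟨q, hq, hqD⟩ := Nat.exists_prime_and_dvd (n := D.natAbs) (by omega)
  have hqD' : (q : ℤ) ∣ D := Int.natCast_dvd.2 hqD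
  have hqp : q ≠ p := by
    rintro rfl
    exact hpD hqD'
  obtain ⟨c, hc⟩ := hqD'
  have hqc : ¬ (q : ℤ) ∣ c := by
    rintro ⟨d, hd⟩
    have h1 : (q : ℤ) * q ∣ D := ⟨d, by rw [hc, hd]; ring⟩
    have h2 := hsq _ h1
    exact (Nat.prime_iff_prime_int.1 hq).not_unit h2
  obtain ⟨w, hw⟩ : ∃ w : HeightOneSpectrum (𝓞 L), (q : 𝓞 L) ∈ w.asIdeal := by
    have hne : ¬ IsUnit (q : 𝓞 L) := by
      intro h
      have h1 : IsUnit (Algebra.norm ℤ (q : 𝓞 L)) := h.map (Algebra.norm ℤ)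
      have h2 : Algebra.norm ℤ (q : 𝓞 L) = (q : ℤ) ^ Module.finrank ℤ (𝓞 L) := by
        have := Algebra.norm_algebraMap (S := 𝓞 L) (q : ℤ)
        rwa [map_natCast] at this
      rw [h2] at h1
      have h3 : Module.finrank ℤ (𝓞 L) ≠ 0 := by
        rw [RingOfIntegers.rank]
        exact Module.finrank_pos.ne'
      exact (Nat.prime_iff_prime_int.1 hq).not_unit ((isUnit_pow_iff h3).1 h1)
    obtain ⟨P, hP, hqP⟩ := exists_max_ideal_of_mem_nonunits (mem_nonunits_iff.2 hne)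
    refine ⟨⟨P, hP.isPrime, ?_⟩, hqP⟩
    rintro rfl
    rw [Ideal.mem_bot, Nat.cast_eq_zero] at hqP
    exact hq.ne_zero hqP
  have h1 : w.valuation L (D : L) = exp (-1 : ℤ) := by
    rw [hc, Int.cast_mul, map_mul, val_unit hq w hw hqc, mul_one, Int.cast_natCast, val_prime hq hqp hL w hw]
  rw [← hz, map_pow] at h1
  have h2 := congrArg WithZero.log h1
  rw [WithZero.log_pow, WithZero.log_exp, nsmul_eq_mul] at h2
  push_cast at h2
  omega

end H11Q
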