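import Pool.Agent.H11.T3Q.Qa
import Pool.Agent.H11.T3Q.Qb
import Pool.Agent.H11.T3R.Main
import Pool.Agent.H55.T3.Df5
import Pool.Agent.H68.TK.Sgb

/-!
The real side over the rationals: `B = L(s)`, `s² = D > 1` squarefree, `A = K(s)` (helper11, MP_78d38b_T3D; no row).
-/

set_option autoImplicit false
open scoped Classical

open IsDedekindDomain NumberField WithZero H5SW

namespace H11Q

theorem comm_layer0 {p : ℕ} [Fact p.Prime] {K L : Type} [Field K] [NumberField K] [Field L] [NumberField L] [Algebra K L]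
    (hL : IsR p L) (g g' : L ≃ₐ[K] L) : g * g' = g' * g := by
  have h1 : IntermediateField.adjoin ℚ (Set.range (RingHom.id L)) = ⊤ := by
    rw [eq_top_iff]
    intro x _
    exact IntermediateField.subset_adjoin _ _ ⟨x, rfl⟩
  exact H68TK.comm_gal (k := ℚ) (RingHom.id L) hL h1 g g'

/-- the data `A = K(s) ⊆ B = L(s)` -/
theorem exists_A {D : ℤ} {K L B : Type} [Field K] [NumberField K] [Field L] [NumberField L] [Field B]
    [NumberField B] [Algebra K L] [Algebra L B] [Algebra K B] [IsScalarTower K L B] {s : B} (hs : s ^ 2 = (D : B))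
    (hgen : IntermediateField.adjoin L {s} = ⊤) (h0 : ∀ z : L, z ^ 2 ≠ (D : L)) :
    ∃ (A : Type) (_ : Field A) (_ : NumberField A) (_ : Algebra K A) (_ : Algebra A B), IsScalarTower K A B ∧
      (∀ g : B ≃ₐ[K] B, g s = s → ∀ x : A, g (algebraMap A B x) = algebraMap A B x) ∧
      ∃ q : H11R.QP D K L A B, algebraMap A B q.s = s := by
  have hfd : FiniteDimensional K B := Module.Finite.of_restrictScalars_finite ℚ K B
  obtain ⟨σ, hσ⟩ := neg_q hs hgen h0
  have h0K : ∀ z : K, z ^ 2 ≠ (D : K) := by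
    intro z hz
    apply h0 (algebraMap K L z)
    rw [← map_pow, hz, map_intCast]
  have hA2 : Module.finrank K (IntermediateField.adjoin K {s}) = 2 := by
    rw [IntermediateField.adjoin.finrank (IsIntegral.of_finite K s), min_q hs h0K,
      Polynomial.natDegree_X_pow_sub_C]
  have hNF : NumberField (IntermediateField.adjoin K {s}) := NumberField.of_module_finite K _
  have hsA : s ∈ IntermediateField.adjoin K {s} := IntermediateField.mem_adjoin_simple_self K s
  refine ⟨IntermediateField.adjoin K {s}, inferInstance, hNF, inferInstance, inferInstance, inferInstance, ?_, ?_⟩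
  · intro g hg x
    obtain ⟨x, hx⟩ := x
    change g x = x
    induction hx using IntermediateField.adjoin_induction with
    | mem x hx => rw [Set.mem_singleton_iff.1 hx, hg]
    | algebraMap x => exact g.commutes x
    | add x y _ _ hx hy => rw [map_add, hx, hy]
    | inv x _ hx => rw [map_inv₀, hx]
    | mul x y _ _ hx hy => rw [map_mul, hx, hy]
  · refine ⟨⟨⟨s, hsA⟩, ?_, ?_, hA2, finrank_q hs hgen h0, σ.restrictScalars ℚ, ?_, hσ⟩, rfl⟩
    · apply Subtype.ext
      change s ^ 2 = ((D : IntermediateField.adjoin K {s}) : B)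
      rw [hs]
      rfl
    · intro x
      rw [← IsScalarTower.algebraMap_apply, ← IsScalarTower.algebraMap_apply]
    · intro x
      exact σ.commutes x

theorem realD {D : ℤ} (hD : 1 < D) (hsq : Squarefree D) {p : ℕ} [Fact p.Prime] (hp5 : 5 ≤ p) (hpD : ¬ (p : ℤ) ∣ D) :
    ∃ N : ℕ, ∀ (K L : Type) [Field K] [NumberField K] [Field L] [NumberField L] [Algebra K L], IsR p L →
      (∃ i : ℕ, Module.finrank K L = p ^ i) → p ^ N ∣ Module.finrank ℚ K →
      ∀ (B : Type) [Field B] [NumberField B] [Algebra L B] [Algebra K B] [IsScalarTower K L B] (s : B), s ^ 2 = (D : B) →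
      IntermediateField.adjoin L {s} = ⊤ →
      Module.finrank L B = 2 ∧ IsGalois K B ∧ IsGalois L B ∧ (∀ g : B ≃ₐ[L] B, g s = s → g = 1) ∧
      (∃ g : B ≃ₐ[L] B, g s = -s) ∧ (∀ g g' : B ≃ₐ[K] B, g * g' = g' * g) ∧
      ∃ (A : Type) (_ : Field A) (_ : NumberField A) (_ : Algebra K A) (_ : Algebra A B) (_ : IsScalarTower K A B),
        (∀ g : B ≃ₐ[K] B, g s = s → ∀ x : A, g (algebraMap A B x) = algebraMap A B x) ∧ H55T3.NoNewCubeM L A B s := by
  have hp2 : p ≠ 2 := by omega
  obtain ⟨N, hN⟩ := H11R.noNewT_main hD hsq hp5 hpD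
  refine ⟨N, ?_⟩
  intro K L _ _ _ _ _ hL ⟨i, hi⟩ hK B _ _ _ _ _ s hs hgen
  have h0 := no_sqrt hD hsq hpD hL
  have hgal : IsGalois K L := by
    obtain ⟨n, M, F, _, _, _, _, _, _, _, ⟨Tw⟩⟩ := exists_tower (p := p) hp2 hL hi
    exact galois_KL hp2 Tw
  obtain ⟨A, _, _, _, _, hT, hA, q, hq⟩ := exists_A (K := K) hs hgen h0
  have hM := hN K L A B hL i hi hK q
  have hGK : IsGalois K B := galois_q (K := K) (L := L) hs hgen
  have hGL : IsGalois L B := IsGalois.tower_top_of_isGalois K L B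
  refine ⟨finrank_q hs hgen h0, hGK, hGL, fun g hg => H68TK.gen_s hgen g hg, neg_q hs hgen h0,
    comm_q (comm_layer0 hL) hs hgen, A, inferInstance, inferInstance, inferInstance, inferInstance, hT, hA, ?_⟩
  intro x hx0 hx hv h3 hNx
  refine hM x hx0 ?_ hv h3 hNx
  obtain ⟨σ, hσ⟩ := neg_q hs hgen h0
  have e : σ.restrictScalars ℚ = q.σ := by
    refine AlgEquiv.ext fun y => ?_
    refine H68TK.Del_ext {s} hgen ((σ.restrictScalars ℚ : B ≃ₐ[ℚ] B) : B →+* B) ((q.σ : B ≃ₐ[ℚ] B) : B →+* B) (fun r => ?_) ?_ y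
    · change σ (algebraMap L B r) = q.σ (algebraMap L B r)
      rw [σ.commutes, q.σL]
    · intro z hz
      rw [Set.mem_singleton_iff] at hz
      subst hz
      change σ z = q.σ z
      have h2 := q.σs
      rw [hq] at h2
      rw [hσ, h2]
  rw [← e]
  exact hx σ hσ

end H11Q
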