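import Pool.Agent.H11.T3Q.Qa
import Pool.Agent.H11.T3Q.Qb
import Pool.Agent.H55.T3.KD
import Pool.Agent.H55.T3.Fin
import Pool.Agent.H68.TK.Sgb

/-!
The theorem over the rationals for a curve with a rational subgroup of order three (helper11, MP_78d38b_T3D; no row).
-/

set_option autoImplicit false
open scoped Classical

open WeierstrassCurve IsDedekindDomain NumberField WithZero Pool.Agent.H10 Pool.Agent.H11 H5SW H55T3

namespace H11Q

/-- the real side over the rationals -/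
def RealQ (p : ℕ) [Fact p.Prime] (D : ℤ) : Prop :=
  ∃ N : ℕ, ∀ (K L : Type) [Field K] [NumberField K] [Field L] [NumberField L] [Algebra K L], IsR p L →
    (∃ i : ℕ, Module.finrank K L = p ^ i) → p ^ N ∣ Module.finrank ℚ K → (∀ z : L, z ^ 2 ≠ (D : L)) →
    ∀ (B : Type) [Field B] [NumberField B] [Algebra L B] [Algebra K B] [IsScalarTower K L B] (s : B), s ^ 2 = (D : B) →
    IntermediateField.adjoin L {s} = ⊤ →
    ∃ (A : Type) (_ : Field A) (_ : NumberField A) (_ : Algebra K A) (_ : Algebra A B) (_ : IsScalarTower K A B),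
      (∀ g : B ≃ₐ[K] B, g s = s → ∀ x : A, g (algebraMap A B x) = algebraMap A B x) ∧ NoNewCubeM L A B s

/-- the minus side over the rationals -/
def MinusQ (p : ℕ) [Fact p.Prime] (D : ℤ) : Prop :=
  ∃ N : ℕ, ∀ (K L : Type) [Field K] [NumberField K] [Field L] [NumberField L] [Algebra K L], IsR p L →
    (∃ i : ℕ, Module.finrank K L = p ^ i) → p ^ N ∣ Module.finrank ℚ K →
    ∀ (C : Type) [Field C] [NumberField C] [Algebra L C] [Algebra K C] [IsScalarTower K L C] (s : C), s ^ 2 = -3 * (D : C) →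
    IntermediateField.adjoin L {s} = ⊤ → NoNewMinus K L C s

/-- good at three -/
def GoodD (D α β : ℤ) : Prop :=
  (¬ 3 ∣ D ∧ ∃ i : ℕ, (3 : ℤ) ^ (i + 1) ∣ α ∧ (3 : ℤ) ^ (3 * i + 5) ∣ 27 * β - 4 * D * α ^ 3 ∧ ¬ (3 : ℤ) ^ (3 * i + 3) ∣ β) ∨
  (3 ∣ D ∧ ¬ 9 ∣ D ∧ ∃ i : ℕ, (3 : ℤ) ^ (i + 1) ∣ α ∧ (3 : ℤ) ^ (3 * i + 1) ∣ β ∧ ¬ (3 : ℤ) ^ (3 * i + 3) ∣ β)

theorem exists_quad {L : Type} [Field L] [NumberField L] (c : L) :
    ∃ (B : Type) (_ : Field B) (_ : NumberField B) (_ : Algebra L B) (s : B), s ^ 2 = algebraMap L B c ∧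
      IntermediateField.adjoin L {s} = ⊤ := by
  obtain ⟨s0, hs0⟩ := IsAlgClosed.exists_pow_nat_eq (algebraMap L (AlgebraicClosure L) c) (n := 2) (by norm_num)
  have hint : IsIntegral L s0 := (Algebra.IsAlgebraic.isAlgebraic s0).isIntegral
  have hfd : FiniteDimensional L (IntermediateField.adjoin L {s0}) := IntermediateField.adjoin.finiteDimensional hint
  have hNF : NumberField (IntermediateField.adjoin L {s0}) := NumberField.of_module_finite L _
  have hsA : s0 ∈ IntermediateField.adjoin L {s0} := IntermediateField.mem_adjoin_simple_self L s0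
  refine ⟨IntermediateField.adjoin L {s0}, inferInstance, hNF, inferInstance, ⟨s0, hsA⟩, ?_, ?_⟩
  · apply Subtype.ext
    exact hs0
  · rw [eq_top_iff]
    rintro ⟨x, hx⟩ -
    induction hx using IntermediateField.adjoin_induction with
    | mem x hx =>
      rw [Set.mem_singleton_iff] at hx
      subst hx
      exact IntermediateField.mem_adjoin_simple_self L _
    | algebraMap x => exact IntermediateField.algebraMap_mem _ x
    | add x y hx hy ihx ihy => exact add_mem ihx ihy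
    | inv x hx ih => exact inv_mem ih
    | mul x y hx hy ihx ihy => exact mul_mem ihx ihy

theorem val_le {L : Type} [Field L] [NumberField L] {w : HeightOneSpectrum (𝓞 L)} (h3 : w.valuation L 3 = exp (-1 : ℤ))
    {j : ℕ} {n : ℤ} (h : (3 : ℤ) ^ j ∣ n) : w.valuation L (n : L) ≤ exp (-(j : ℤ)) := by
  obtain ⟨c, rfl⟩ := h
  have h1 : w.valuation L ((c : ℤ) : L) ≤ 1 := by
    have e2 : algebraMap (𝓞 L) L (c : 𝓞 L) = (c : L) := map_intCast (algebraMap (𝓞 L) L) c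
    rw [← e2]
    exact w.valuation_le_one _
  have h2 : w.valuation L (3 ^ j) = exp (-(j : ℤ)) := by
    rw [map_pow, h3, ← exp_nsmul]
    congr 1
    simp
  rw [Int.cast_mul, Int.cast_pow, Int.cast_ofNat, map_mul, h2]
  calc exp (-(j : ℤ)) * w.valuation L (c : L) ≤ exp (-(j : ℤ)) * 1 := mul_le_mul_right h1 _
    _ = exp (-(j : ℤ)) := mul_one _

theorem val_gt {L : Type} [Field L] [NumberField L] {w : HeightOneSpectrum (𝓞 L)} (hw : (3 : 𝓞 L) ∈ w.asIdeal)
    (h3 : w.valuation L 3 = exp (-1 : ℤ)) {j : ℕ} {n : ℤ} (h : ¬ (3 : ℤ) ^ j ∣ n) : exp (-(j : ℤ)) < w.valuation L (n : L) := by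
  have hn : n ≠ 0 := by
    rintro rfl
    exact h (dvd_zero _)
  obtain ⟨m, hnm, hm⟩ := (FiniteMultiplicity.of_prime_left Int.prime_three hn).exists_eq_pow_mul_and_not_dvd
  obtain ⟨k, hkk⟩ : ∃ k : ℕ, k = multiplicity (3 : ℤ) n := ⟨_, rfl⟩
  rw [← hkk] at hnm
  subst hnm
  have hk : k < j := by
    by_contra hc
    rw [not_lt] at hc
    exact h ((pow_dvd_pow 3 hc).trans (dvd_mul_right _ _))
  have h1 : w.valuation L ((m : ℤ) : L) = 1 := val_unit Nat.prime_three w (by exact_mod_cast hw) (by exact_mod_cast hm)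
  have h2 : w.valuation L (3 ^ k) = exp (-(k : ℤ)) := by
    rw [map_pow, h3, ← exp_nsmul]
    congr 1
    simp
  rw [Int.cast_mul, Int.cast_pow, Int.cast_ofNat, map_mul, h2, h1, mul_one, exp_lt_exp]
  omega

theorem goodVD_of {L : Type} [Field L] [NumberField L] {w : HeightOneSpectrum (𝓞 L)} (hw : (3 : 𝓞 L) ∈ w.asIdeal)
    (h3 : w.valuation L 3 = exp (-1 : ℤ)) {D α β : ℤ} (hg : GoodD D α β) : GoodVD (w.valuation L) D (α : L) (β : L) := by
  have e : 27 * (β : L) - 4 * (D : L) * (α : L) ^ 3 = ((27 * β - 4 * D * α ^ 3 : ℤ) : L) := by push_cast; ring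
  rcases hg with ⟨h0, i, h1, h2, h4⟩ | ⟨h0, h9, i, h1, h2, h4⟩
  · refine Or.inl ⟨h0, i, ?_, ?_, ?_⟩
    · exact_mod_cast val_le h3 h1
    · rw [e]
      exact_mod_cast val_le h3 h2
    · exact_mod_cast val_gt hw h3 h4
  · refine Or.inr ⟨h0, h9, i, ?_, ?_, ?_⟩
    · exact_mod_cast val_le h3 h1
    · exact_mod_cast val_le h3 h2
    · exact_mod_cast val_gt hw h3 h4

theorem comm_layer {p : ℕ} [Fact p.Prime] {K L : Type} [Field K] [NumberField K] [Field L] [NumberField L] [Algebra K L]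
    (hL : IsR p L) (g g' : L ≃ₐ[K] L) : g * g' = g' * g := by
  have h1 : IntermediateField.adjoin ℚ (Set.range (RingHom.id L)) = ⊤ := by
    rw [eq_top_iff]
    intro x _
    exact IntermediateField.subset_adjoin _ _ ⟨x, rfl⟩
  exact H68TK.comm_gal (k := ℚ) (RingHom.id L) hL h1 g g'

/-- a negative integer is not a square in a real field -/
theorem no_sqrt_neg {L : Type} [Field L] [NumberField L] (h : IsTotallyReal L) {D : ℤ} (hD : D < 0) (z : L) : z ^ 2 ≠ (D : L) := by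
  intro hz
  obtain ⟨φ0⟩ : Nonempty (L →+* ℂ) := inferInstance
  let φ : L →+* ℝ := (h.complexEmbedding_isReal φ0).embedding
  have h1 : (φ z) ^ 2 = (D : ℝ) := by rw [← map_pow, hz, map_intCast]
  have h2 : (D : ℝ) < 0 := by exact_mod_cast hD
  nlinarith [sq_nonneg (φ z)]

/-- The curves over the rationals, `D` not a square in the layers. -/
theorem towerD_of {p : ℕ} [Fact p.Prime] (hp : 5 ≤ p) {D : ℤ} (hD : 0 < D) (hD9 : ¬ 9 ∣ D) (HR : RealQ p D) (HM : MinusQ p D)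
    {α β : ℤ} (hβ : β ≠ 0) (hγ : 27 * β - 4 * D * α ^ 3 ≠ 0) (hg : GoodD D α β) :
    ∃ N : ℕ, ∀ (K L : Type) [Field K] [NumberField K] [Field L] [NumberField L] [Algebra K L], IsR p L →
      (∃ i : ℕ, Module.finrank K L = p ^ i) → p ^ N ∣ Module.finrank ℚ K → (∀ z : L, z ^ 2 ≠ (D : L)) →
      ∀ E : WeierstrassCurve K, (E = curWD (D : K) (α : K) (β : K) ∨ E = curVD (D : K) (α : K) ((27 * β - 4 * D * α ^ 3 : ℤ) : K)) →
      ShaThreeBijective K E L ∧
      ∃ m : ℕ, ¬ 3 ∣ m ∧ ∀ P : (E.baseChange L).toAffine.Point,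
        ∃ Q : (E.baseChange K).toAffine.Point,
          m • P = WeierstrassCurve.Affine.Point.map (Algebra.ofId K L) Q := by
  have hpp := (Fact.out : p.Prime)
  have hp2 : p ≠ 2 := by omega
  have hD0 : D ≠ 0 := hD.ne'
  have hM0 : 6 * D * β * (27 * β - 4 * D * α ^ 3) ≠ 0 := mul_ne_zero (mul_ne_zero (mul_ne_zero (by norm_num) hD0) hβ) hγ
  obtain ⟨T, hT⟩ := exists_val_bound (p := p) (D := (6 * D * β * (27 * β - 4 * D * α ^ 3)).natAbs) (Int.natAbs_ne_zero.mpr hM0)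
  obtain ⟨N1, hN1⟩ := HR
  obtain ⟨N2, hN2⟩ := HM
  refine ⟨N1 + N2 + T, ?_⟩
  intro K L _ _ _ _ _ hL ⟨i, hi⟩ hK h0 E hE
  have hpos : Module.finrank ℚ K ≠ 0 := Module.finrank_pos.ne'
  have hv : N1 + N2 + T ≤ padicValNat p (Module.finrank ℚ K) := (padicValNat_dvd_iff_le hpos).1 hK
  obtain ⟨n, M, F, _, _, _, _, _, _, _, ⟨Tw⟩⟩ := exists_tower (p := p) hp2 hL hi
  have hgal : IsGalois K L := galois_KL hp2 Tw
  have hodd : Odd (Module.finrank K L) := by
    rw [hi]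
    exact (hpp.odd_of_ne_two hp2).pow
  have h3n : ¬ 3 ∣ Module.finrank K L := by
    rw [hi]
    intro h
    have := (Nat.prime_dvd_prime_iff_eq Nat.prime_three hpp).mp (Nat.prime_three.dvd_of_dvd_pow h)
    omega
  have hunr : ∀ w : HeightOneSpectrum (𝓞 L), (3 : 𝓞 L) ∈ w.asIdeal → w.valuation L 3 = exp (-1 : ℤ) := by
    intro w hw
    have := val_prime Nat.prime_three (by omega : 3 ≠ p) hL w (by exact_mod_cast hw)
    exact_mod_cast this
  -- the field `B`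
  obtain ⟨B, _, _, _, s, hs, hgen⟩ := exists_quad (D : L)
  rw [map_intCast] at hs
  letI : Algebra K B := ((algebraMap L B).comp (algebraMap K L)).toAlgebra
  have hTB : IsScalarTower K L B := IsScalarTower.of_algebraMap_eq (fun _ => rfl)
  obtain ⟨A, _, _, _, _, _, hA, RR⟩ := hN1 K L hL ⟨i, hi⟩ ((pow_dvd_pow p (by omega)).trans hK) h0 B s hs hgen
  have hGB : IsGalois K B := galois_q (K := K) (L := L) hs hgen
  have hGLB : IsGalois L B := IsGalois.tower_top_of_isGalois K L B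
  -- the field `C`
  obtain ⟨C, _, _, _, s', hs', hgen'⟩ := exists_quad ((-3 * D : ℤ) : L)
  rw [map_intCast] at hs'
  letI : Algebra K C := ((algebraMap L C).comp (algebraMap K L)).toAlgebra
  have hTC : IsScalarTower K L C := IsScalarTower.of_algebraMap_eq (fun _ => rfl)
  have h0' : ∀ z : L, z ^ 2 ≠ ((-3 * D : ℤ) : L) := no_sqrt_neg hL.1 (by omega)
  have hGC : IsGalois K C := galois_q (K := K) (L := L) hs' hgen'
  have hGLC : IsGalois L C := IsGalois.tower_top_of_isGalois K L C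
  have hs'' : s' ^ 2 = -3 * (D : C) := by
    rw [hs']
    push_cast
    ring
  have RM := hN2 K L hL ⟨i, hi⟩ ((pow_dvd_pow p (by omega)).trans hK) C s' hs'' hgen'
  have cα : ((α : 𝓞 K) : K) = (α : K) := map_intCast (algebraMap (𝓞 K) K) α
  have cβ : ((β : 𝓞 K) : K) = (β : K) := map_intCast (algebraMap (𝓞 K) K) β
  have hβ' : ((β : ℤ) : 𝓞 K) ≠ 0 := by exact_mod_cast hβ
  have hγ' : 27 * ((β : ℤ) : 𝓞 K) - 4 * (D : 𝓞 K) * ((α : ℤ) : 𝓞 K) ^ 3 ≠ 0 := by
    have e : 27 * ((β : ℤ) : 𝓞 K) - 4 * (D : 𝓞 K) * ((α : ℤ) : 𝓞 K) ^ 3 = ((27 * β - 4 * D * α ^ 3 : ℤ) : 𝓞 K) := by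
      push_cast
      ring
    rw [e]
    exact_mod_cast hγ
  have hbad : ∀ v : HeightOneSpectrum (𝓞 K),
      6 * (D : 𝓞 K) * ((β : ℤ) : 𝓞 K) * (27 * ((β : ℤ) : 𝓞 K) - 4 * D * ((α : ℤ) : 𝓞 K) ^ 3) ∈ v.asIdeal → UniqueOver K L v.asIdeal := by
    intro v hv'
    have e : 6 * (D : 𝓞 K) * ((β : ℤ) : 𝓞 K) * (27 * ((β : ℤ) : 𝓞 K) - 4 * D * ((α : ℤ) : 𝓞 K) ^ 3) =
        ((6 * D * β * (27 * β - 4 * D * α ^ 3) : ℤ) : 𝓞 K) := by
      push_cast
      ring
    rw [e] at hv'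
    obtain ⟨q, hq, hqD, hqv⟩ := exists_prime_mem hM0 v hv'
    exact unique_tower hp2 Tw hq (fun hqp => hT q hq hqD hqp) (by omega) v hqv
  have hgood : ∀ w : HeightOneSpectrum (𝓞 L), (3 : 𝓞 L) ∈ w.asIdeal →
      GoodVD (w.valuation L) D (algebraMap K L (((α : ℤ) : 𝓞 K) : K)) (algebraMap K L (((β : ℤ) : 𝓞 K) : K)) := by
    intro w hw
    rw [cα, cβ, map_intCast, map_intCast]
    exact goodVD_of hw (hunr w hw) hg
  have hE' : E = curWD (D : K) (((α : ℤ) : 𝓞 K) : K) (((β : ℤ) : 𝓞 K) : K) ∨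
      E = curVD (D : K) (((α : ℤ) : 𝓞 K) : K) (27 * (((β : ℤ) : 𝓞 K) : K) - 4 * (D : K) * (((α : ℤ) : 𝓞 K) : K) ^ 3) := by
    rw [cα, cβ]
    rcases hE with hE | hE
    · exact Or.inl hE
    · right
      rw [hE]
      congr 1
      push_cast
      ring
  obtain ⟨h1, h2⟩ := ct3_pairD (A := A) hodd h3n hD9 hs (finrank_q hs hgen h0) (fun g hg => H68TK.gen_s hgen g hg)
    (neg_q hs hgen h0) hA RR hs'' (finrank_q hs' hgen' h0') (fun g hg => H68TK.gen_s hgen' g hg) (neg_q hs' hgen' h0')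
    (comm_q (comm_layer hL) hs' hgen') RM hβ' hγ' hgood hbad hunr E hE'
  exact of_ct3 h3n h1 h2

end H11Q
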