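import Pool.Agent.H11.T3Q.Qc
import Pool.Agent.H11.T3Q.Qd

/-!
The real side over the rationals for `p` not dividing `D` (helper11, MP_78d38b_T3D; no row).
-/

set_option autoImplicit false
open scoped Classical

open IsDedekindDomain NumberField WithZero H5SW

namespace H11Q

theorem realQ_of {D : ℤ} (hD : 1 < D) (hsq : Squarefree D) {p : ℕ} [Fact p.Prime] (hp5 : 5 ≤ p) (hpD : ¬ (p : ℤ) ∣ D) :
    RealQ p D := by
  obtain ⟨N, hN⟩ := realD hD hsq hp5 hpD
  refine ⟨N, ?_⟩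
  intro K L _ _ _ _ _ hL hi hK _ B _ _ _ _ _ s hs hgen
  obtain ⟨-, -, -, -, -, -, h⟩ := hN K L hL hi hK B s hs hgen
  exact h

end H11Q
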