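import Pool.Agent.H11.T3Q.Qd
import Pool.Agent.H55.T3.KFin3
import Pool.Agent.H68.TK.Base

/-!
The theorem over the rationals when `D` is a square in `K` (helper11, MP_78d38b_T3D; no row).
-/

set_option autoImplicit false
open scoped Classical

open WeierstrassCurve IsDedekindDomain NumberField WithZero Pool.Agent.H10 Pool.Agent.H11 H5SW H55T3

namespace H11Q

theorem towerD_sq {p : ℕ} [Fact p.Prime] (hp : 5 ≤ p) {D : ℤ} (hD : 0 < D) (hD9 : ¬ 9 ∣ D)
    {α β : ℤ} (hβ : β ≠ 0) (hγ : 27 * β - 4 * D * α ^ 3 ≠ 0) (hg : GoodD D α β) :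
    ∃ N : ℕ, ∀ (K L : Type) [Field K] [NumberField K] [Field L] [NumberField L] [Algebra K L], IsR p L →
      (∃ i : ℕ, Module.finrank K L = p ^ i) → p ^ N ∣ Module.finrank ℚ K → (∃ z : K, z ^ 2 = (D : K)) →
      ∀ E : WeierstrassCurve K, (E = curWD (D : K) (α : K) (β : K) ∨ E = curVD (D : K) (α : K) ((27 * β - 4 * D * α ^ 3 : ℤ) : K)) →
      ShaThreeBijective K E L ∧
      ∃ m : ℕ, ¬ 3 ∣ m ∧ ∀ P : (E.baseChange L).toAffine.Point,
        ∃ Q : (E.baseChange K).toAffine.Point,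
          m • P = WeierstrassCurve.Affine.Point.map (Algebra.ofId K L) Q := by
  have hpp := (Fact.out : p.Prime)
  have hp2 : p ≠ 2 := by omega
  have hD0 : D ≠ 0 := hD.ne'
  have hM0 : 6 * D * β * (27 * β - 4 * D * α ^ 3) ≠ 0 := mul_ne_zero (mul_ne_zero (mul_ne_zero (by norm_num) hD0) hβ) hγ
  obtain ⟨T, hT⟩ := exists_val_bound (p := p) (D := (6 * D * β * (27 * β - 4 * D * α ^ 3)).natAbs) (Int.natAbs_ne_zero.mpr hM0)
  obtain ⟨k0, hS⟩ := sinnott3 (p := p) hp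
  refine ⟨k0 + T, ?_⟩
  intro K L _ _ _ _ _ hL ⟨i, hi⟩ hK ⟨z, hz⟩ E hE
  have hpos : Module.finrank ℚ K ≠ 0 := Module.finrank_pos.ne'
  have hv : k0 + T ≤ padicValNat p (Module.finrank ℚ K) := (padicValNat_dvd_iff_le hpos).1 hK
  have G : H68TK.GoodT (6 * D * β * (27 * β - 4 * D * α ^ 3)) K L :=
    H68TK.goodT_rat (k0 := k0) (T := T) hp (fun {m n K L M F} _ _ _ _ _ _ _ _ _ _ _ _ hk T => noNewCube_of_tower hp hS hk T)
      (fun {m n} hmn {C} _ _ _ hk => noNewC hp hS hk hmn (stick _ C)) hM0 hT K L hL hi (by omega) (by omega)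
  haveI := G.gal
  have hunr : ∀ w : HeightOneSpectrum (𝓞 L), (3 : 𝓞 L) ∈ w.asIdeal → w.valuation L 3 = exp (-1 : ℤ) := by
    intro w hw
    have := val_prime Nat.prime_three (by omega : 3 ≠ p) hL w (by exact_mod_cast hw)
    exact_mod_cast this
  obtain ⟨δ, hδ⟩ : ∃ δ : 𝓞 K, (δ : K) = z := by
    have h1 : IsIntegral ℤ z := by
      refine IsIntegral.of_pow (n := 2) (by norm_num) ?_
      rw [hz]
      exact isIntegral_algebraMap (R := ℤ) (A := K) (x := D)
    exact ⟨⟨z, h1⟩, rfl⟩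
  have hδ2 : δ ^ 2 = (D : 𝓞 K) := by
    apply RingOfIntegers.coe_injective
    have h1 : algebraMap (𝓞 K) K (δ ^ 2) = (δ : K) ^ 2 := map_pow (algebraMap (𝓞 K) K) δ 2
    rw [h1, hδ, hz]
    exact (map_intCast (algebraMap (𝓞 K) K) D).symm
  have hδ0 : δ ≠ 0 := by
    rintro rfl
    rw [zero_pow two_ne_zero] at hδ2
    exact hD0 (by exact_mod_cast hδ2.symm)
  have cα : ((δ * (α : 𝓞 K) : 𝓞 K) : K) = z * (α : K) := by
    have h1 : ((δ * (α : 𝓞 K) : 𝓞 K) : K) = (δ : K) * ((α : 𝓞 K) : K) := map_mul (algebraMap (𝓞 K) K) _ _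
    rw [h1, hδ]
    congr 1
  have cβ : ((δ * (β : 𝓞 K) : 𝓞 K) : K) = z * (β : K) := by
    have h1 : ((δ * (β : 𝓞 K) : 𝓞 K) : K) = (δ : K) * ((β : 𝓞 K) : K) := map_mul (algebraMap (𝓞 K) K) _ _
    rw [h1, hδ]
    congr 1
  have hβ0 : δ * (β : 𝓞 K) ≠ 0 := mul_ne_zero hδ0 (by exact_mod_cast hβ)
  have eγ : 27 * (δ * (β : 𝓞 K)) - 4 * (δ * (α : 𝓞 K)) ^ 3 = δ * ((27 * β - 4 * D * α ^ 3 : ℤ) : 𝓞 K) := by
    push_cast
    rw [← hδ2]
    ring
  have hγ0 : 27 * (δ * (β : 𝓞 K)) - 4 * (δ * (α : 𝓞 K)) ^ 3 ≠ 0 := by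
    rw [eγ]
    exact mul_ne_zero hδ0 (by exact_mod_cast hγ)
  have hbad : ∀ v : HeightOneSpectrum (𝓞 K), 6 * (δ * (β : 𝓞 K)) * (27 * (δ * (β : 𝓞 K)) - 4 * (δ * (α : 𝓞 K)) ^ 3) ∈ v.asIdeal →
      UniqueOver K L v.asIdeal := by
    intro v hv'
    apply G.bad v
    have e : 6 * (δ * (β : 𝓞 K)) * (27 * (δ * (β : 𝓞 K)) - 4 * (δ * (α : 𝓞 K)) ^ 3) =
        ((6 * D * β * (27 * β - 4 * D * α ^ 3) : ℤ) : 𝓞 K) := by
      rw [eγ]
      push_cast
      rw [← hδ2]
      ring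
    rw [e] at hv'
    exact hv'
  have hgood : ∀ w : HeightOneSpectrum (𝓞 L), (3 : 𝓞 L) ∈ w.asIdeal →
      GoodV w (algebraMap K L ((δ * (α : 𝓞 K) : 𝓞 K) : K)) (algebraMap K L ((δ * (β : 𝓞 K) : 𝓞 K) : K)) := by
    intro w hw
    rw [cα, cβ, map_mul, map_mul, map_intCast, map_intCast]
    have hzw : w.valuation L (algebraMap K L z) ^ 2 = w.valuation L (D : L) := by
      rw [← map_pow, ← map_pow, hz, map_intCast]
    rcases hg with ⟨h0, i, h1, h2, h4⟩ | ⟨h0, h9, -⟩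
    · have hz1 : w.valuation L (algebraMap K L z) = 1 := by
        rw [val_unit Nat.prime_three w (by exact_mod_cast hw) (by exact_mod_cast h0)] at hzw
        exact (pow_eq_one_iff_of_nonneg zero_le two_ne_zero).1 hzw
      refine ⟨i, ?_, ?_, ?_⟩
      · rw [map_mul, hz1, one_mul]
        exact_mod_cast val_le (hunr w hw) h1
      · have e : 27 * (algebraMap K L z * (β : L)) - 4 * (algebraMap K L z * (α : L)) ^ 3 =
            algebraMap K L z * ((27 * β - 4 * D * α ^ 3 : ℤ) : L) := by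
          have h5 : algebraMap K L z ^ 2 = (D : L) := by rw [← map_pow, hz, map_intCast]
          push_cast
          rw [← h5]
          ring
        rw [e, map_mul, hz1, one_mul]
        exact_mod_cast val_le (hunr w hw) h2
      · rw [map_mul, hz1, one_mul]
        exact_mod_cast val_gt hw (hunr w hw) h4
    · exfalso
      obtain ⟨c, hc⟩ := h0
      have hc3 : ¬ (3 : ℤ) ∣ c := by
        rintro ⟨d, rfl⟩
        exact h9 ⟨d, by rw [hc]; ring⟩
      have h5 : w.valuation L (D : L) = exp (-1 : ℤ) := by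
        rw [hc, Int.cast_mul, map_mul, Int.cast_ofNat, hunr w hw,
          val_unit Nat.prime_three w (by exact_mod_cast hw) (c := c) (by exact_mod_cast hc3), mul_one]
      rw [h5] at hzw
      have h6 := congrArg WithZero.log hzw
      rw [WithZero.log_pow, WithZero.log_exp, nsmul_eq_mul] at h6
      push_cast at h6
      omega
  have hE' : E = curW ((δ * (α : 𝓞 K) : 𝓞 K) : K) ((δ * (β : 𝓞 K) : 𝓞 K) : K) ∨
      E = curV ((δ * (α : 𝓞 K) : 𝓞 K) : K) (27 * ((δ * (β : 𝓞 K) : 𝓞 K) : K) - 4 * ((δ * (α : 𝓞 K) : 𝓞 K) : K) ^ 3) := by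
    rw [cα, cβ]
    rcases hE with hE | hE
    · left
      rw [hE, ← hz]
      simp only [curWD, curW, WeierstrassCurve.mk.injEq]
      refine ⟨trivial, ?_, trivial, ?_, ?_⟩ <;> ring
    · right
      rw [hE, ← hz]
      push_cast
      rw [← hz]
      simp only [curVD, curV, WeierstrassCurve.mk.injEq]
      refine ⟨trivial, ?_, trivial, ?_, ?_⟩ <;> ring
  obtain ⟨s, hs, hs2⟩ := exists_L3 L
  have hGC : IsGalois K (CyclotomicField 3 L) := H68TK.galois_s (K := K) (L := L) hs hs2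
  have hGLC : IsGalois L (CyclotomicField 3 L) := IsGalois.tower_top_of_isGalois K L _
  obtain ⟨h1, h2⟩ := ct3_pair3 G.odd G.three G.RC hs (fun g hg => H68TK.gen_s hs2 g hg) (H68TK.neg_s hs hs2 (H68TK.no_sqrt hL.1))
    (H68TK.comm_pair (comm_layer hL) hs hs2) (G.RM _ s hs hs2) hβ0 hγ0 hgood hbad hunr E hE'
  exact of_ct3 G.three h1 h2

/-- a square root in `L` of an element of `K` lies in `K` for odd degree -/
theorem sq_down {K L : Type} [Field K] [NumberField K] [Field L] [NumberField L] [Algebra K L] (hodd : Odd (Module.finrank K L))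
    {c : K} {z : L} (hz : z ^ 2 = algebraMap K L c) : ∃ y : K, y ^ 2 = c := by
  by_contra hcon
  have hirr : Irreducible (Polynomial.X ^ 2 - Polynomial.C c : Polynomial K) :=
    X_pow_sub_C_irreducible_of_prime Nat.prime_two (fun b hb => hcon ⟨b, hb⟩)
  have hmin : minpoly K z = Polynomial.X ^ 2 - Polynomial.C c := by
    symm
    apply minpoly.eq_of_irreducible_of_monic hirr
    · rw [map_sub, map_pow, Polynomial.aeval_X, Polynomial.aeval_C, hz, sub_self]
    · exact Polynomial.monic_X_pow_sub_C _ two_ne_zero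
  have hfd : FiniteDimensional K L := Module.Finite.of_restrictScalars_finite ℚ K L
  have h2 : Module.finrank K (IntermediateField.adjoin K {z}) = 2 := by
    rw [IntermediateField.adjoin.finrank (IsIntegral.of_finite K z), hmin, Polynomial.natDegree_X_pow_sub_C]
  have h3 := Module.finrank_mul_finrank K (IntermediateField.adjoin K {z}) L
  rw [h2] at h3
  rw [← h3] at hodd
  exact (Nat.not_odd_iff_even.2 (even_two_mul _)) hodd

/-- The curves over the rationals. -/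
theorem towerD_gen {p : ℕ} [Fact p.Prime] (hp : 5 ≤ p) {D : ℤ} (hD : 0 < D) (hD9 : ¬ 9 ∣ D) (HR : RealQ p D) (HM : MinusQ p D)
    {α β : ℤ} (hβ : β ≠ 0) (hγ : 27 * β - 4 * D * α ^ 3 ≠ 0) (hg : GoodD D α β) :
    ∃ N : ℕ, ∀ (K L : Type) [Field K] [NumberField K] [Field L] [NumberField L] [Algebra K L], IsR p L →
      (∃ i : ℕ, Module.finrank K L = p ^ i) → p ^ N ∣ Module.finrank ℚ K →
      ∀ E : WeierstrassCurve K, (E = curWD (D : K) (α : K) (β : K) ∨ E = curVD (D : K) (α : K) ((27 * β - 4 * D * α ^ 3 : ℤ) : K)) →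
      ShaThreeBijective K E L ∧
      ∃ m : ℕ, ¬ 3 ∣ m ∧ ∀ P : (E.baseChange L).toAffine.Point,
        ∃ Q : (E.baseChange K).toAffine.Point,
          m • P = WeierstrassCurve.Affine.Point.map (Algebra.ofId K L) Q := by
  obtain ⟨N1, h1⟩ := towerD_of hp hD hD9 HR HM hβ hγ hg
  obtain ⟨N2, h2⟩ := towerD_sq hp hD hD9 hβ hγ hg
  refine ⟨N1 + N2, ?_⟩
  intro K L _ _ _ _ _ hL hi hK
  by_cases hz : ∃ z : L, z ^ 2 = (D : L)
  · obtain ⟨z, hz⟩ := hz
    have hodd : Odd (Module.finrank K L) := by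
      obtain ⟨i, hi⟩ := hi
      rw [hi]
      exact ((Fact.out : p.Prime).odd_of_ne_two (by omega)).pow
    obtain ⟨y, hy⟩ := sq_down (c := (D : K)) hodd (by rw [hz, map_intCast])
    exact h2 K L hL hi ((pow_dvd_pow p (by omega)).trans hK) ⟨y, hy⟩
  · exact h1 K L hL hi ((pow_dvd_pow p (by omega)).trans hK) (fun z hz' => hz ⟨z, hz'⟩)

end H11Q
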